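import Pool.Agent.helper95.RF.SpecC3

/-!
# RF stage 2 (MP_16912e_nt), block C': row GLB, lower bound for the number of tuples
-/

set_option autoImplicit false

namespace Pool.Agent.RF

open Finset NumberField Pool.Agent.helper3.FT

theorem GLB_cop (P q : ℕ) (h : Nat.Coprime q (10 * P)) : Nat.Coprime q (10 * (16 * 5 ^ 6 * P)) := by
  have h10 : Nat.Coprime q 10 := Nat.Coprime.coprime_mul_right_right h
  have hP : Nat.Coprime q P := Nat.Coprime.coprime_mul_left_right h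
  have h2 : Nat.Coprime q 2 := Nat.Coprime.coprime_dvd_right (by norm_num) h10
  have h5 : Nat.Coprime q 5 := Nat.Coprime.coprime_dvd_right (by norm_num) h10
  have h16 : Nat.Coprime q 16 := by
    have := Nat.Coprime.pow_right 4 h2
    simpa using this
  exact Nat.Coprime.mul_right h10 (Nat.Coprime.mul_right (Nat.Coprime.mul_right h16 (Nat.Coprime.pow_right 6 h5)) hP)

theorem GLB_va1 : va 1 = 1 := by
  unfold va
  rw [QuadraticAlgebra.re_one, QuadraticAlgebra.im_one]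
  push_cast
  ring

theorem GLB_vb1 : vb 1 = 1 := by
  unfold vb
  rw [QuadraticAlgebra.re_one, QuadraticAlgebra.im_one]
  push_cast
  ring

open Classical in
/-- the pairs `(M, s)` of `F` over `k` -/
noncomputable def GLB_fib (F : Finset (OO × OO × ℤ)) (k : OO) : Finset (OO × ℤ) :=
  (F.filter (fun t => t.1 = k)).image (fun t => t.2)

theorem GLB_fib_mem (F : Finset (OO × OO × ℤ)) (k M : OO) (s : ℤ) (h : (k, M, s) ∈ F) :
    (M, s) ∈ GLB_fib F k := by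
  classical
  unfold GLB_fib
  exact mem_image.2 ⟨(k, M, s), mem_filter.2 ⟨h, rfl⟩, rfl⟩

theorem GLB_fib_sum (F : Finset (OO × OO × ℤ)) (W : Finset OO) :
    ∑ k ∈ W, ((GLB_fib F k).card : ℝ) ≤ (F.card : ℝ) := by
  classical
  have h1 : ∀ k ∈ W, ((GLB_fib F k).card : ℝ) ≤ ((F.filter (fun t => t.1 = k)).card : ℝ) := by
    intro k hk
    exact_mod_cast card_image_le
  have h2 : ∑ k ∈ W, (F.filter (fun t => t.1 = k)).card = (F.filter (fun t => t.1 ∈ W)).card := by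
    have h3 : (F.filter (fun t => t.1 ∈ W)).card = ∑ k ∈ W, ((F.filter (fun t => t.1 ∈ W)).filter (fun t => t.1 = k)).card :=
      card_eq_sum_card_fiberwise (fun t ht => (mem_filter.1 ht).2)
    rw [h3]
    refine sum_congr rfl fun k hk => ?_
    rw [filter_filter]
    congr 1
    refine filter_congr fun t ht => ?_
    constructor
    · rintro rfl
      exact ⟨hk, rfl⟩
    · exact fun h => h.2
  calc ∑ k ∈ W, ((GLB_fib F k).card : ℝ) ≤ ∑ k ∈ W, ((F.filter (fun t => t.1 = k)).card : ℝ) := sum_le_sum h1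
    _ = ((F.filter (fun t => t.1 ∈ W)).card : ℝ) := by exact_mod_cast h2
    _ ≤ (F.card : ℝ) := by exact_mod_cast card_filter_le _ _

theorem GLB (h1 : NKA_stmt) (h2 : GRM_stmt) (h3 : GPL_stmt) (h4 : GKT_stmt) (h5 : GKN_stmt) (h6 : GSL_stmt) : GLB_stmt := by
  classical
  obtain ⟨C₁, hC₁, NKA⟩ := h1
  obtain ⟨-, GRM⟩ := h2
  obtain ⟨C₃, hC₃, GPL⟩ := h3
  obtain ⟨c₅, C₅, hc₅, hC₅, GKN⟩ := h5
  obtain ⟨c₆, hc₆, GSL⟩ := h6
  have hC₃0 : 0 < C₃ := by linarith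
  have hC₁0 : 0 < C₁ := by linarith
  refine ⟨c₅ * c₆ / C₃, by positivity, ?_⟩
  intro P hP
  obtain ⟨C₆, hC₆, GSL⟩ := GSL P hP
  obtain ⟨X₀, GKN⟩ := GKN (10 * P) (by omega)
  refine ⟨C₃ * C₁ * C₆, ?_, ?_⟩
  · have : 1 ≤ C₃ * C₁ := one_le_mul_of_one_le_of_one_le hC₃ hC₁
    exact one_le_mul_of_one_le_of_one_le this hC₆
  intro ρ hρ
  obtain ⟨N₀, GSL⟩ := GSL ρ hρ (max X₀ 100)
  refine ⟨N₀, ?_⟩
  intro N X hN hX hXN M₀ s₀ hM F hF
  obtain ⟨hN1, hX0, B, T, R, hB, hT, hEB, hET, hSX, hR, hmain, herr⟩ := GSL N X hN hX hXN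
  have hX₀ : X₀ ≤ X := le_trans (le_max_left _ _) hX0
  have hX100 : 100 ≤ X := le_trans (le_max_right _ _) hX0
  obtain ⟨hKT, hass⟩ := h4 X (10 * P) hX100 (Dvd.intro _ rfl)
  obtain ⟨hcard, -, -⟩ := GKN X hX₀
  set W := KT X (10 * P) with hW
  set E : ℕ := 16 * 5 ^ 6 * P with hE
  set S := SZ N X with hS
  have hE1 : 1 ≤ E := by
    have : 0 < E := by positivity
    omega
  have hS0 : 0 < S := by
    rw [hS]
    unfold SZ
    positivity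
  have hT0 : (0 : ℝ) < T := by exact_mod_cast hT
  have hB0 : (0 : ℝ) < B := by exact_mod_cast hB
  have hER : (1 : ℝ) ≤ E := by exact_mod_cast hE1
  -- the coefficients
  have hex : ∀ k : OO, ∃ a : ℤ × ℤ × ℤ, k ∈ W → RM k 1 1 a ∧
      (B : ℝ) ^ 2 / (C₃ * T) ≤ ((GLB_fib F k).card : ℝ) + C₃ / T * (B * NK B T E k a) := by
    intro k
    by_cases hk : k ∈ W
    · obtain ⟨hKG, hcop, hpos, hq1, hq2⟩ := hKT k hk
      have hM₀ := hM k
      obtain ⟨a, ha, hg⟩ := GPL E k (M₀ k) (s₀ k) hE1 hKG.cp (GLB_cop P _ hcop) hM₀.1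
        (by rw [hE]; push_cast; exact hM₀.2.1) hM₀.2.2.1 (by rw [hE]; push_cast; exact hM₀.2.2.2)
      refine ⟨a, fun _ => ⟨ha, ?_⟩⟩
      have hX2 : 0 < X ^ 2 := by positivity
      have hq0 : (0 : ℝ) < (k.norm.natAbs : ℝ) := lt_of_lt_of_le hX2 hq1
      refine hg B T (S / 2) (S / 2) (GLB_fib F k) hB hT (by positivity) ?_ ?_ ?_
      · refine le_trans ?_ hET
        have : (k.norm.natAbs : ℝ) ^ 3 ≤ (108 / 100 * X ^ 2) ^ 3 := pow_le_pow_left₀ hq0.le hq2 3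
        gcongr
      · have h7 : (X ^ 2) ^ 3 ≤ (k.norm.natAbs : ℝ) ^ 3 := pow_le_pow_left₀ hX2.le hq1 3
        have h8 : (k.norm.natAbs : ℝ) ^ 3 ≤ (E : ℝ) * (k.norm.natAbs : ℝ) ^ 3 := by
          have : 0 ≤ (k.norm.natAbs : ℝ) ^ 3 := by positivity
          nlinarith
        linarith
      · intro M s hcg hdM hds hre him hz1 hz2
        apply GLB_fib_mem
        apply hF
        exact ⟨hk, hcg, hdM, hds, le_trans hre hEB, le_trans him hEB, hz1, by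
          show (s : ℝ) ≤ S
          linarith⟩
    · exact ⟨(0, 0, 0), fun h => absurd h hk⟩
  choose a ha using hex
  -- the sum of the near points
  have hQ1 : 1 ≤ ⌊X ^ 2⌋₊ := by
    apply Nat.le_floor
    push_cast
    nlinarith
  have hNKA := NKA ⌊X ^ 2⌋₊ B T E 1 1 R 1 W a hQ1 hB hT hE1 le_rfl le_rfl one_ne_zero
    (by rw [GLB_va1]; norm_num) (by rw [GLB_vb1]; norm_num) (by
      refine le_trans (le_of_eq ?_) hR
      push_cast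
      ring) (by
      intro k hk
      obtain ⟨hKG, hcop, hpos, hq1, hq2⟩ := hKT k hk
      refine ⟨hKG, ?_, Nat.coprime_one_left _, ?_⟩
      · rw [star_one]
        exact isCoprime_one_right
      · have := GRM k 1 1 (a k) (by simpa using (isCoprime_one_right : IsCoprime k 1)) (by
          simpa using (ha k hk).1)
        exact this) hass
  -- assembly
  have hsum : ∑ k ∈ W, ((B : ℝ) ^ 2 / (C₃ * T)) ≤
      ∑ k ∈ W, (((GLB_fib F k).card : ℝ) + C₃ / T * (B * NK B T E k (a k))) :=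
    sum_le_sum fun k hk => (ha k hk).2
  rw [sum_const, nsmul_eq_mul, sum_add_distrib, ← mul_sum, ← mul_sum] at hsum
  have hfib := GLB_fib_sum F W
  have hP0 : (0 : ℝ) < P := by exact_mod_cast hP
  have e1 : c₅ * c₆ / C₃ / (P : ℝ) ^ 5 * (ρ ^ (-(2 / 3) : ℝ) * N) ≤ (W.card : ℝ) * ((B : ℝ) ^ 2 / (C₃ * T)) := by
    have e2 : c₅ * c₆ / C₃ / (P : ℝ) ^ 5 * (ρ ^ (-(2 / 3) : ℝ) * N) =
        c₅ / C₃ * (c₆ / (P : ℝ) ^ 5 * (ρ ^ (-(2 / 3) : ℝ) * N)) := by ring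
    rw [e2]
    calc c₅ / C₃ * (c₆ / (P : ℝ) ^ 5 * (ρ ^ (-(2 / 3) : ℝ) * N))
        ≤ c₅ / C₃ * (X ^ 2 / ((10 * P : ℕ) : ℝ) ^ 2 * ((B : ℝ) ^ 2 / T)) := by gcongr
      _ = (c₅ * X ^ 2 / ((10 * P : ℕ) : ℝ) ^ 2) * ((B : ℝ) ^ 2 / (C₃ * T)) := by
          field_simp
      _ ≤ (W.card : ℝ) * ((B : ℝ) ^ 2 / (C₃ * T)) := by gcongr
  have e3 : C₃ / T * (B * ∑ k ∈ W, NK B T E k (a k)) ≤
      C₃ * C₁ * C₆ / ρ * (ρ ^ (-(2 / 3) : ℝ) * N) := by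
    calc C₃ / T * (B * ∑ k ∈ W, NK B T E k (a k))
        ≤ C₃ / T * (B * (C₁ * (T * (⌊X ^ 2⌋₊ : ℝ) + R ^ (3 / 2 : ℝ) * ((T : ℝ) ^ (5 / 4 : ℝ) + (⌊X ^ 2⌋₊ : ℝ) * (T : ℝ) ^ (1 / 4 : ℝ))))) := by
          gcongr
      _ = C₃ * C₁ * ((B : ℝ) / T * (T * (⌊X ^ 2⌋₊ : ℝ) + R ^ (3 / 2 : ℝ) * ((T : ℝ) ^ (5 / 4 : ℝ) + (⌊X ^ 2⌋₊ : ℝ) * (T : ℝ) ^ (1 / 4 : ℝ)))) := by ring
      _ ≤ C₃ * C₁ * (C₆ / ρ * (ρ ^ (-(2 / 3) : ℝ) * N)) := by gcongr
      _ = C₃ * C₁ * C₆ / ρ * (ρ ^ (-(2 / 3) : ℝ) * N) := by ring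
  have e4 : (c₅ * c₆ / C₃ / (P : ℝ) ^ 5 - C₃ * C₁ * C₆ / ρ) * (ρ ^ (-(2 / 3) : ℝ) * N) =
      c₅ * c₆ / C₃ / (P : ℝ) ^ 5 * (ρ ^ (-(2 / 3) : ℝ) * N) - C₃ * C₁ * C₆ / ρ * (ρ ^ (-(2 / 3) : ℝ) * N) := by ring
  rw [e4]
  linarith

end Pool.Agent.RF
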