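import Pool.Agent.helper67.RG.Spec

/-!
# Project rg (MP_2e0e07_nt), row rg:SPL

Splitting of a homomorphism of Lie algebras with trivial radical.
-/

set_option autoImplicit false

namespace Pool.Agent.RG.SPL

theorem SPL : SPL_stmt := by
  intro F L Q _ _ _ _ _ _ _ _ π
  obtain ⟨K, hK⟩ : ∃ K : LieIdeal F L, K = π.ker := ⟨_, rfl⟩
  have hKmem : ∀ x, x ∈ K ↔ π x = 0 := by
    intro x
    rw [hK]
    exact LieHom.mem_ker
  have hc := LieIdeal.isCompl_killingCompl K
  obtain ⟨C, hC⟩ : ∃ C : LieIdeal F L, C = K.killingCompl := ⟨_, rfl⟩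
  rw [← hC] at hc
  have hCmem : ∀ x, x ∈ C ↔ ∀ y ∈ K, killingForm F L y x = 0 := by
    intro x
    rw [hC]
    exact LieIdeal.mem_killingCompl ..
  have huniq : ∀ x ∈ C, ∀ y ∈ C, π x = π y → x = y := by
    intro x hx y hy hxy
    have h1 : x - y ∈ C := sub_mem hx hy
    have h2 : x - y ∈ K := by
      rw [hKmem, map_sub, hxy, sub_self]
    have h3 : x - y ∈ K ⊓ C := ⟨h2, h1⟩
    rw [hc.inf_eq_bot] at h3
    exact sub_eq_zero.1 ((LieSubmodule.mem_bot _).1 h3)
  have hex : ∀ q : π.range, ∃ c : L, c ∈ C ∧ π c = q.1 := by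
    intro q
    obtain ⟨y, hy⟩ := (LieHom.mem_range π q.1).1 q.2
    have h1 : y ∈ K ⊔ C := by
      rw [hc.sup_eq_top]
      trivial
    obtain ⟨k, hk, c, hc', hkc⟩ := (LieSubmodule.mem_sup K C y).1 h1
    refine ⟨c, hc', ?_⟩
    rw [← hy, ← hkc, map_add, (hKmem k).1 hk, zero_add]
  choose s hs1 hs2 using hex
  have hadd : ∀ q q' : π.range, s (q + q') = s q + s q' := by
    intro q q'
    refine huniq _ (hs1 _) _ (add_mem (hs1 _) (hs1 _)) ?_
    rw [hs2, map_add, hs2, hs2]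
    rfl
  have hsmul : ∀ (r : F) (q : π.range), s (r • q) = r • s q := by
    intro r q
    refine huniq _ (hs1 _) _ (SMulMemClass.smul_mem r (hs1 _)) ?_
    rw [hs2, map_smul, hs2]
    rfl
  have hlie : ∀ q q' : π.range, s ⁅q, q'⁆ = ⁅s q, s q'⁆ := by
    intro q q'
    refine huniq _ (hs1 _) _ (lie_mem_right F L C _ _ (hs1 _)) ?_
    rw [hs2, LieHom.map_lie, hs2, hs2]
    rfl
  refine ⟨{ toFun := s, map_add' := hadd, map_smul' := hsmul, map_lie' := fun {q q'} => hlie q q' },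
    hs2, ?_⟩
  intro a ha q q' hq
  have hmap : K.toSubmodule.map (a : L →ₗ[F] L) = K.toSubmodule := by
    apply Submodule.eq_of_le_of_finrank_eq
    · rintro _ ⟨x, hx, rfl⟩
      exact (hKmem _).2 (ha x ((hKmem x).1 hx))
    · exact LinearEquiv.finrank_map_eq (a : L ≃ₗ[F] L) K.toSubmodule
  have haC : a (s q) ∈ C := by
    rw [hCmem]
    intro y hy
    have hy' : y ∈ K.toSubmodule.map (a : L →ₗ[F] L) := by
      rw [hmap]
      exact hy
    obtain ⟨x, hx, rfl⟩ := hy'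
    have h1 := LieAlgebra.killingForm_of_equiv_apply a x (s q)
    exact h1.trans ((hCmem _).1 (hs1 q) x hx)
  refine huniq _ haC _ (hs1 _) ?_
  have h2 : π (a (s q)) = q'.1 := hq
  have h3 : π (s q') = q'.1 := hs2 q'
  exact h2.trans h3.symm

end Pool.Agent.RG.SPL
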